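import Mathlib

/-!
# Coarse traces on a line (row COA)
-/

namespace Pool.SC.Coa

open Finset

/-- index of the segment of `t` on a side of length `L` -/
def sg (L s t : ℕ) : ℕ := min (t / s) (L / s - 1)

theorem sg_mono (L s : ℕ) : Monotone (sg L s) := by
  intro a b hab
  unfold sg
  exact min_le_min_right _ (Nat.div_le_div_right hab)

theorem sg_lt {L s : ℕ} (hs : 1 ≤ s) (hL : s ≤ L) (t : ℕ) : sg L s t < L / s := by
  have h1 : 1 ≤ L / s := (Nat.one_le_div_iff (by omega)).2 hL
  unfold sg
  omega

/-- the segment `j` -/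
def segm (L s j : ℕ) : Finset ℕ := (range L).filter (fun t => sg L s t = j)

theorem segm_card_ge {L s : ℕ} (hs : 1 ≤ s) {j : ℕ} (hj : j < L / s) :
    s ≤ (segm L s j).card := by
  have hsub : Ico (j * s) ((j + 1) * s) ⊆ segm L s j := by
    intro t ht
    rw [mem_Ico] at ht
    have h1 : (j + 1) * s ≤ L := by
      calc (j + 1) * s ≤ (L / s) * s := Nat.mul_le_mul_right _ hj
        _ ≤ L := Nat.div_mul_le_self _ _
    have h2 : t / s = j := by
      apply Nat.div_eq_of_lt_le
      · exact ht.1
      · exact ht.2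
    unfold segm
    rw [mem_filter, mem_range]
    refine ⟨by omega, ?_⟩
    unfold sg
    omega
  have := card_le_card hsub
  rw [Nat.card_Ico] at this
  have h3 : (j + 1) * s - j * s = s := by
    rw [Nat.add_mul]; omega
  omega

theorem segm_card_le {L s : ℕ} (hs : 1 ≤ s) (j : ℕ) : (segm L s j).card ≤ 2 * s := by
  have hsub : segm L s j ⊆ Ico (j * s) ((j + 2) * s) := by
    intro t ht
    unfold segm at ht
    rw [mem_filter, mem_range] at ht
    obtain ⟨h1, h2⟩ := ht
    unfold sg at h2
    rw [mem_Ico]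
    have hL : L < (L / s + 1) * s := (Nat.div_lt_iff_lt_mul hs).1 (Nat.lt_succ_self _)
    have ht : t < (t / s + 1) * s := (Nat.div_lt_iff_lt_mul hs).1 (Nat.lt_succ_self _)
    have ht' : t / s * s ≤ t := Nat.div_mul_le_self _ _
    have hle : j ≤ t / s := by omega
    refine ⟨le_trans (Nat.mul_le_mul_right _ hle) ht', ?_⟩
    rcases le_total (t / s) (L / s - 1) with h | h
    · have : t / s = j := by omega
      rw [this] at ht
      refine lt_of_lt_of_le ht (Nat.mul_le_mul_right _ (by omega))
    · have : j = L / s - 1 := by omega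
      refine lt_of_lt_of_le (lt_trans h1 hL) (Nat.mul_le_mul_right _ (by omega))
  have := card_le_card hsub
  rw [Nat.card_Ico] at this
  have h3 : (j + 2) * s - j * s = 2 * s := by
    rw [Nat.add_mul]; omega
  omega

open Classical in
/-- a change between `t` and `r` -/
theorem exists_flip (B : ℕ → Prop) {t r : ℕ} (htr : t ≤ r) (h : ¬ (B t ↔ B r)) :
    ∃ u, t ≤ u ∧ u < r ∧ ¬ (B u ↔ B (u + 1)) := by
  induction r, htr using Nat.le_induction with
  | base => exact absurd Iff.rfl h
  | succ r hr ih =>
    by_cases hb : (B t ↔ B r)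
    · refine ⟨r, hr, Nat.lt_succ_self _, ?_⟩
      intro h'
      exact h (hb.trans h')
    · obtain ⟨u, h1, h2, h3⟩ := ih hb
      exact ⟨u, h1, by omega, h3⟩

open Classical in
theorem line (L s H : ℕ) (hs : 1 ≤ s) (hL : s ≤ L) (B : ℕ → ℤ → Prop) :
    ∃ ρ : ℕ → ℕ, (∀ j, j < L / s → ρ j < L) ∧
    (∑ j ∈ range (L / s), ((Ico (0 : ℤ) H).filter (fun h => ¬ (B (ρ j) h ↔ B (ρ j) (h + 1)))).card) * s
      ≤ ∑ t ∈ range L, ((Ico (0 : ℤ) H).filter (fun h => ¬ (B t h ↔ B t (h + 1)))).card ∧
    ∑ t ∈ range L, ((Icc (0 : ℤ) H).filter (fun h => ¬ (B t h ↔ B (ρ (sg L s t)) h))).card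
      ≤ 2 * s * ∑ t ∈ range (L - 1), ((Icc (0 : ℤ) H).filter (fun h => ¬ (B t h ↔ B (t + 1) h))).card := by
  set v : ℕ → ℕ := fun t => ((Ico (0 : ℤ) H).filter (fun h => ¬ (B t h ↔ B t (h + 1)))).card with hv
  set ho : ℕ → ℕ := fun t => ((Icc (0 : ℤ) H).filter (fun h => ¬ (B t h ↔ B (t + 1) h))).card with hho
  have hex : ∀ j, ∃ r, j < L / s → (r ∈ segm L s j ∧ ∀ t ∈ segm L s j, v r ≤ v t) := by
    intro j
    by_cases hj : j < L / s
    · have hne : (segm L s j).Nonempty := by
        rw [← card_pos]
        have := segm_card_ge hs hj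
        omega
      obtain ⟨r, hr, hr'⟩ := exists_min_image (segm L s j) v hne
      exact ⟨r, fun _ => ⟨hr, hr'⟩⟩
    · exact ⟨0, fun h => absurd h hj⟩
  choose ρ hρ using hex
  have hmem : ∀ j t, t ∈ segm L s j ↔ t < L ∧ sg L s t = j := by
    intro j t
    unfold segm
    rw [mem_filter, mem_range]
  refine ⟨ρ, fun j hj => ((hmem _ _).1 (hρ j hj).1).1, ?_, ?_⟩
  · have h1 : ∑ t ∈ range L, v t = ∑ j ∈ range (L / s), ∑ t ∈ segm L s j, v t := by
      unfold segm
      rw [sum_fiberwise_of_maps_to]
      intro t _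
      exact mem_range.2 (sg_lt hs hL t)
    change (∑ j ∈ range (L / s), v (ρ j)) * s ≤ ∑ t ∈ range L, v t
    rw [h1, sum_mul]
    refine sum_le_sum fun j hj => ?_
    rw [mem_range] at hj
    have h2 : (segm L s j).card • v (ρ j) ≤ ∑ t ∈ segm L s j, v t :=
      card_nsmul_le_sum _ _ _ (hρ j hj).2
    have h3 := segm_card_ge hs hj
    calc v (ρ j) * s ≤ v (ρ j) * (segm L s j).card := Nat.mul_le_mul_left _ h3
      _ = (segm L s j).card • v (ρ j) := by rw [smul_eq_mul, Nat.mul_comm]
      _ ≤ _ := h2
  · have key : ∀ j < L / s, ∀ t ∈ segm L s j,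
        ((Icc (0 : ℤ) H).filter (fun h => ¬ (B t h ↔ B (ρ j) h))).card
          ≤ ∑ u ∈ (range (L - 1)).filter (fun u => sg L s u = j), ho u := by
      intro j hj t ht
      have hr := (hmem _ _).1 (hρ j hj).1
      have ht' := (hmem _ _).1 ht
      have hsub : (Icc (0 : ℤ) H).filter (fun h => ¬ (B t h ↔ B (ρ j) h)) ⊆
          ((range (L - 1)).filter (fun u => sg L s u = j)).biUnion
            (fun u => (Icc (0 : ℤ) H).filter (fun h => ¬ (B u h ↔ B (u + 1) h))) := by
        intro h hh
        rw [mem_filter] at hh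
        rw [mem_biUnion]
        have : ∃ u, min t (ρ j) ≤ u ∧ u < max t (ρ j) ∧ ¬ (B u h ↔ B (u + 1) h) := by
          rcases le_total t (ρ j) with h' | h'
          · rw [min_eq_left h', max_eq_right h']
            exact exists_flip (fun u => B u h) h' hh.2
          · rw [min_eq_right h', max_eq_left h']
            exact exists_flip (fun u => B u h) h' (fun h'' => hh.2 h''.symm)
        obtain ⟨u, h1, h2, h3⟩ := this
        refine ⟨u, ?_, ?_⟩
        · rw [mem_filter, mem_range]
          have ha := sg_mono L s h1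
          have hb := sg_mono L s h2.le
          have hc : sg L s (min t (ρ j)) = j := by
            rcases min_choice t (ρ j) with h' | h' <;> rw [h']
            · exact ht'.2
            · exact hr.2
          have hd : sg L s (max t (ρ j)) = j := by
            rcases max_choice t (ρ j) with h' | h' <;> rw [h']
            · exact ht'.2
            · exact hr.2
          have he : max t (ρ j) < L := max_lt ht'.1 hr.1
          omega
        · rw [mem_filter]
          exact ⟨hh.1, h3⟩
      exact (card_le_card hsub).trans card_biUnion_le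
    have h1 : ∑ t ∈ range L, ((Icc (0 : ℤ) H).filter (fun h => ¬ (B t h ↔ B (ρ (sg L s t)) h))).card
        = ∑ j ∈ range (L / s), ∑ t ∈ segm L s j,
          ((Icc (0 : ℤ) H).filter (fun h => ¬ (B t h ↔ B (ρ (sg L s t)) h))).card := by
      unfold segm
      rw [sum_fiberwise_of_maps_to]
      intro t _
      exact mem_range.2 (sg_lt hs hL t)
    rw [h1]
    have h2 : ∑ t ∈ range (L - 1), ho t
        = ∑ j ∈ range (L / s), ∑ u ∈ (range (L - 1)).filter (fun u => sg L s u = j), ho u := by
      rw [sum_fiberwise_of_maps_to]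
      intro t _
      exact mem_range.2 (sg_lt hs hL t)
    change _ ≤ 2 * s * ∑ t ∈ range (L - 1), ho t
    rw [h2, mul_sum]
    refine sum_le_sum fun j hj => ?_
    rw [mem_range] at hj
    calc ∑ t ∈ segm L s j, ((Icc (0 : ℤ) H).filter (fun h => ¬ (B t h ↔ B (ρ (sg L s t)) h))).card
        ≤ ∑ t ∈ segm L s j, ∑ u ∈ (range (L - 1)).filter (fun u => sg L s u = j), ho u := by
          refine sum_le_sum fun t ht => ?_
          have := key j hj t ht
          rw [((hmem _ _).1 ht).2]
          exact this
      _ = (segm L s j).card * ∑ u ∈ (range (L - 1)).filter (fun u => sg L s u = j), ho u := by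
          rw [sum_const, smul_eq_mul]
      _ ≤ _ := Nat.mul_le_mul_right _ (segm_card_le hs j)

/-- number of small subsets -/
theorem small_subsets {β : Type*} [DecidableEq β] (U : Finset β) (k : ℕ) :
    (U.powerset.filter (fun s => s.card ≤ k)).card ≤ (U.card + 1) ^ k := by
  induction k with
  | zero =>
    have : U.powerset.filter (fun s => s.card ≤ 0) ⊆ {∅} := by
      intro s hs
      rw [mem_filter] at hs
      rw [mem_singleton, ← card_eq_zero]
      omega
    simpa using card_le_card this
  | succ k ih =>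
    have hsub : U.powerset.filter (fun s => s.card ≤ k + 1) ⊆
        U.powerset.filter (fun s => s.card ≤ k) ∪ U.powersetCard (k + 1) := by
      intro s hs
      rw [mem_filter, mem_powerset] at hs
      rw [mem_union, mem_filter, mem_powerset, mem_powersetCard]
      rcases Nat.lt_or_ge s.card (k + 1) with h | h
      · left; exact ⟨hs.1, by omega⟩
      · right; exact ⟨hs.1, by omega⟩
    have h1 := (card_le_card hsub).trans (card_union_le _ _)
    rw [card_powersetCard] at h1
    have h2 : U.card.choose (k + 1) ≤ U.card ^ (k + 1) := Nat.choose_le_pow _ _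
    have h3 : U.card ^ (k + 1) ≤ (U.card + 1) ^ k * U.card := by
      rw [pow_succ]
      exact Nat.mul_le_mul_right _ (Nat.pow_le_pow_left (by omega) _)
    calc _ ≤ (U.card + 1) ^ k + (U.card + 1) ^ k * U.card := by omega
      _ = (U.card + 1) ^ (k + 1) := by ring

open Classical in
/-- parity of the number of flips -/
theorem even_flips (B : ℤ → Prop) (n : ℕ) :
    Even ((Ico (0 : ℤ) n).filter (fun h => ¬ (B h ↔ B (h + 1)))).card ↔ (B n ↔ B 0) := by
  induction n with
  | zero => simp
  | succ n ih =>
    have h1 : Ico (0 : ℤ) ((n + 1 : ℕ) : ℤ) = insert (n : ℤ) (Ico (0 : ℤ) n) := by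
      ext x
      simp only [mem_Ico, mem_insert]
      push_cast
      omega
    rw [h1, filter_insert]
    push_cast
    by_cases hb : (B n ↔ B (n + 1))
    · rw [if_neg (not_not.2 hb), ih]
      exact ⟨fun h => hb.symm.trans h, fun h => hb.trans h⟩
    · rw [if_pos hb, card_insert_of_notMem (by simp), Nat.even_add_one, ih]
      tauto

end Pool.SC.Coa
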