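import Pool.Agent.H61.SC.Stmts
import Pool.Agent.H20.SC.CoaLine

/-!
# Coarse traces (row COA)
-/

namespace Pool.SC.Coa

open Finset

/-- lengths of the four sides -/
def sl (R : Rect) : Fin 4 → ℕ := ![R.l, R.l, R.w - 2, R.w - 2]

/-- columns of the four sides -/
def sco (R : Rect) : Fin 4 → ℕ → ℤ × ℤ :=
  ![fun t => (R.x, R.y + t), fun t => (R.x + R.w - 1, R.y + t),
    fun t => (R.x + 1 + t, R.y), fun t => (R.x + 1 + t, R.y + R.l - 1)]

/-- directions of the four sides -/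
def sdi : Fin 4 → Fin 3 := ![1, 1, 0, 0]

/-- vertex over the column -/
def vt (q : ℤ × ℤ) (h : ℤ) : V := (q.1, q.2, h)

theorem mem_cols (R : Rect) (q : ℤ × ℤ) :
    q ∈ R.cols ↔ (R.x ≤ q.1 ∧ q.1 < R.x + R.w) ∧ (R.y ≤ q.2 ∧ q.2 < R.y + R.l) := by
  unfold Rect.cols
  rw [mem_product, mem_Ico, mem_Ico]

theorem mem_box (R : Rect) (z1 z2 : ℤ) (v : V) :
    v ∈ box R z1 z2 ↔ (R.x ≤ v.1 ∧ v.1 < R.x + R.w) ∧ (R.y ≤ v.2.1 ∧ v.2.1 < R.y + R.l) ∧
      (z1 ≤ v.2.2 ∧ v.2.2 ≤ z2) := by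
  unfold box
  rw [mem_product, mem_product, mem_Ico, mem_Ico, mem_Icc]

theorem mem_eds (R : Rect) (z1 z2 : ℤ) (e : Ed) :
    e ∈ eds R z1 z2 ↔ hd e ∈ box R z1 z2 ∧ tl e ∈ box R z1 z2 := by
  unfold eds hd
  rw [mem_filter, mem_product]
  simp

theorem sco_bd (R : Rect) (hw : 4 ≤ R.w) (hl : 4 ≤ R.l) (k : Fin 4) (t : ℕ) (ht : t < sl R k) :
    bd R (sco R k t) := by
  unfold bd
  rw [mem_cols]
  fin_cases k <;> simp [sl, sco] at ht ⊢ <;> omega

theorem bd_sco (R : Rect) (hw : 4 ≤ R.w) (hl : 4 ≤ R.l) (q : ℤ × ℤ) (hq : bd R q) :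
    ∃ k t, t < sl R k ∧ q = sco R k t := by
  unfold bd at hq
  rw [mem_cols] at hq
  obtain ⟨⟨⟨h1, h2⟩, ⟨h3, h4⟩⟩, h5⟩ := hq
  by_cases hx : q.1 = R.x
  · refine ⟨0, (q.2 - R.y).toNat, ?_, ?_⟩
    · simp [sl]; omega
    · apply Prod.ext
      · simp [sco]; omega
      · simp [sco]; omega
  by_cases hx' : q.1 = R.x + R.w - 1
  · refine ⟨1, (q.2 - R.y).toNat, ?_, ?_⟩
    · simp [sl]; omega
    · apply Prod.ext
      · simp [sco]; omega
      · simp [sco]; omega
  by_cases hy : q.2 = R.y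
  · refine ⟨2, (q.1 - R.x - 1).toNat, ?_, ?_⟩
    · simp [sl]; omega
    · apply Prod.ext
      · simp [sco]; omega
      · simp [sco]; omega
  · refine ⟨3, (q.1 - R.x - 1).toNat, ?_, ?_⟩
    · simp [sl]; omega
    · apply Prod.ext
      · simp [sco]; omega
      · simp [sco]; omega

theorem sco_inj (R : Rect) (hw : 4 ≤ R.w) (hl : 4 ≤ R.l) (k k' : Fin 4) (t t' : ℕ)
    (ht : t < sl R k) (ht' : t' < sl R k') (h : sco R k t = sco R k' t') : k = k' ∧ t = t' := by
  rw [Prod.ext_iff] at h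
  fin_cases k <;> fin_cases k' <;> simp [sl, sco] at ht ht' h ⊢ <;> omega

theorem hor_edge (R : Rect) (hw : 4 ≤ R.w) (hl : 4 ≤ R.l) (H : ℕ) (k : Fin 4) (t : ℕ)
    (ht : t + 1 < sl R k) (h : ℤ) (hh : h ∈ Icc (0 : ℤ) H) :
    tl (sdi k, vt (sco R k t) h) = vt (sco R k (t + 1)) h ∧
    (sdi k, vt (sco R k t) h) ∈ eds R 0 (H : ℤ) ∧ inpl R (sdi k, vt (sco R k t) h) := by
  have h1 : tl (sdi k, vt (sco R k t) h) = vt (sco R k (t + 1)) h := by
    fin_cases k <;> simp [sco, sdi, tl, vt, unitv] <;> omega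
  refine ⟨h1, ?_, ?_⟩
  · rw [mem_eds, h1, mem_box, mem_box]
    rw [mem_Icc] at hh
    fin_cases k <;> simp [sl, sco, sdi, hd, vt] at ht ⊢ <;> omega
  · unfold inpl
    rw [h1]
    fin_cases k <;> simp [sl, sco, sdi, hd, vt] at ht ⊢

theorem ver_edge (R : Rect) (hw : 4 ≤ R.w) (hl : 4 ≤ R.l) (H : ℕ) (k : Fin 4) (t : ℕ)
    (ht : t < sl R k) (h : ℤ) (hh : h ∈ Ico (0 : ℤ) H) :
    tl ((2 : Fin 3), vt (sco R k t) h) = vt (sco R k t) (h + 1) ∧
    ((2 : Fin 3), vt (sco R k t) h) ∈ eds R 0 (H : ℤ) ∧ inpl R ((2 : Fin 3), vt (sco R k t) h) := by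
  have h1 : tl ((2 : Fin 3), vt (sco R k t) h) = vt (sco R k t) (h + 1) := by
    simp [tl, vt, unitv]
  refine ⟨h1, ?_, ?_⟩
  · rw [mem_eds, h1, mem_box, mem_box]
    rw [mem_Ico] at hh
    fin_cases k <;> simp [sl, sco, hd, vt] at ht ⊢ <;> omega
  · unfold inpl
    rw [h1]
    fin_cases k <;> simp [sl, sco, hd, vt] at ht ⊢

open Classical in
/-- all vertical cut edges of the sides are boundary cut edges -/
theorem ver_sum (R : Rect) (hw : 4 ≤ R.w) (hl : 4 ≤ R.l) (H : ℕ) (S : Set V) :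
    ∑ k : Fin 4, ∑ t ∈ range (sl R k), ((Ico (0 : ℤ) H).filter
      (fun h => ¬ (vt (sco R k t) h ∈ S ↔ vt (sco R k t) (h + 1) ∈ S))).card
      ≤ (bcuts R 0 (H : ℤ) S).card := by
  have h1 : ∀ k : Fin 4, ∑ t ∈ range (sl R k), ((Ico (0 : ℤ) H).filter
      (fun h => ¬ (vt (sco R k t) h ∈ S ↔ vt (sco R k t) (h + 1) ∈ S))).card
      = ((range (sl R k)).sigma (fun t => (Ico (0 : ℤ) H).filter
      (fun h => ¬ (vt (sco R k t) h ∈ S ↔ vt (sco R k t) (h + 1) ∈ S)))).card := by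
    intro k
    rw [card_sigma]
  simp only [h1]
  rw [← card_sigma]
  refine card_le_card_of_injOn
    (fun x => ((2 : Fin 3), vt (sco R x.1 x.2.1) x.2.2)) ?_ ?_
  · rintro ⟨k, t, h⟩ hx
    simp only [coe_sigma, Set.mem_sigma_iff, mem_coe, mem_sigma, mem_univ, true_and,
      mem_filter, mem_range] at hx
    obtain ⟨ht, hh, hc⟩ := hx
    have := ver_edge R hw hl H k t ht h hh
    simp only [mem_coe]
    unfold bcuts cuts
    rw [mem_filter, mem_filter]
    refine ⟨⟨this.2.1, ?_⟩, this.2.2⟩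
    unfold cutE
    rw [this.1]
    exact hc
  · rintro ⟨k, t, h⟩ hx ⟨k', t', h'⟩ hx' heq
    simp only [coe_sigma, Set.mem_sigma_iff, mem_coe, mem_sigma, mem_univ, true_and,
      mem_filter, mem_range] at hx hx'
    simp only [vt, Prod.mk.injEq, true_and] at heq
    obtain ⟨e1, e2, e3⟩ := heq
    obtain ⟨rfl, rfl⟩ := sco_inj R hw hl k k' t t' hx.1 hx'.1 (Prod.ext e1 e2)
    subst e3
    rfl

open Classical in
/-- all horizontal cut edges of the sides are boundary cut edges -/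
theorem hor_sum (R : Rect) (hw : 4 ≤ R.w) (hl : 4 ≤ R.l) (H : ℕ) (S : Set V) :
    ∑ k : Fin 4, ∑ t ∈ range (sl R k - 1), ((Icc (0 : ℤ) H).filter
      (fun h => ¬ (vt (sco R k t) h ∈ S ↔ vt (sco R k (t + 1)) h ∈ S))).card
      ≤ (bcuts R 0 (H : ℤ) S).card := by
  have h1 : ∀ k : Fin 4, ∑ t ∈ range (sl R k - 1), ((Icc (0 : ℤ) H).filter
      (fun h => ¬ (vt (sco R k t) h ∈ S ↔ vt (sco R k (t + 1)) h ∈ S))).card
      = ((range (sl R k - 1)).sigma (fun t => (Icc (0 : ℤ) H).filter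
      (fun h => ¬ (vt (sco R k t) h ∈ S ↔ vt (sco R k (t + 1)) h ∈ S)))).card := by
    intro k
    rw [card_sigma]
  simp only [h1]
  rw [← card_sigma]
  refine card_le_card_of_injOn
    (fun x => (sdi x.1, vt (sco R x.1 x.2.1) x.2.2)) ?_ ?_
  · rintro ⟨k, t, h⟩ hx
    simp only [coe_sigma, Set.mem_sigma_iff, mem_coe, mem_sigma, mem_univ, true_and,
      mem_filter, mem_range] at hx
    obtain ⟨ht, hh, hc⟩ := hx
    have := hor_edge R hw hl H k t (by omega) h hh
    simp only [mem_coe]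
    unfold bcuts cuts
    rw [mem_filter, mem_filter]
    refine ⟨⟨this.2.1, ?_⟩, this.2.2⟩
    unfold cutE
    rw [this.1]
    exact hc
  · rintro ⟨k, t, h⟩ hx ⟨k', t', h'⟩ hx' heq
    simp only [coe_sigma, Set.mem_sigma_iff, mem_coe, mem_sigma, mem_univ, true_and,
      mem_filter, mem_range] at hx hx'
    simp only [vt, Prod.mk.injEq] at heq
    obtain ⟨_, e1, e2, e3⟩ := heq
    obtain ⟨rfl, rfl⟩ := sco_inj R hw hl k k' t t' (by omega) (by omega) (Prod.ext e1 e2)
    subst e3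
    rfl

/-- index set of the possible flips -/
noncomputable def uset (R : Rect) (H s : ℕ) : Finset (Fin 4 × ℕ × ℤ) :=
  univ.biUnion fun k => (range (sl R k / s) ×ˢ Ico (0 : ℤ) H).image (fun p => (k, p.1, p.2))

theorem mem_uset (R : Rect) (H s : ℕ) (k : Fin 4) (j : ℕ) (h : ℤ) :
    (k, j, h) ∈ uset R H s ↔ j < sl R k / s ∧ (0 ≤ h ∧ h < H) := by
  unfold uset
  simp only [mem_biUnion, mem_univ, true_and, mem_image, mem_product, mem_range, mem_Ico,
    Prod.mk.injEq, Prod.exists]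
  constructor
  · rintro ⟨k', j', h', ⟨h1, h2⟩, rfl, rfl, rfl⟩
    exact ⟨h1, h2⟩
  · rintro ⟨h1, h2⟩
    exact ⟨k, j, h, ⟨h1, h2⟩, rfl, rfl, rfl⟩

theorem card_uset (R : Rect) (H s : ℕ) : (uset R H s).card ≤ 2 * (R.w + R.l) * H := by
  have h1 : (uset R H s).card ≤ ∑ k : Fin 4, sl R k * H := by
    unfold uset
    refine card_biUnion_le.trans (sum_le_sum fun k _ => ?_)
    refine card_image_le.trans ?_
    rw [card_product, card_range, Int.card_Ico]
    have : sl R k / s ≤ sl R k := Nat.div_le_self _ _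
    have h2 : ((H : ℤ) - 0).toNat = H := by omega
    rw [h2]
    exact Nat.mul_le_mul_right _ this
  refine h1.trans ?_
  rw [← Finset.sum_mul]
  refine Nat.mul_le_mul_right _ ?_
  rw [Fin.sum_univ_four]
  simp only [sl, Matrix.cons_val_zero, Matrix.cons_val_one, Matrix.cons_val]
  omega

open Classical in
/-- the trace with the given flips -/
noncomputable def dec (R : Rect) (s : ℕ) (Φ : Finset (Fin 4 × ℕ × ℤ)) : Set V :=
  {v | ∃ k t, t < sl R k ∧ (v.1, v.2.1) = sco R k t ∧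
    Even ((Ico (0 : ℤ) v.2.2).filter (fun h => (k, sg (sl R k) s t, h) ∈ Φ)).card}

/-- the edges which touch `D` -/
noncomputable def tch (D : Finset V) : Finset Ed :=
  D.biUnion fun v => (univ : Finset (Fin 3)).image (fun i => (i, v)) ∪
    (univ : Finset (Fin 3)).image (fun i => (i, v - unitv i))

theorem card_tch (D : Finset V) : (tch D).card ≤ 6 * D.card := by
  unfold tch
  refine card_biUnion_le.trans ?_
  calc ∑ v ∈ D, ((univ : Finset (Fin 3)).image (fun i => (i, v)) ∪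
      (univ : Finset (Fin 3)).image (fun i => (i, v - unitv i))).card
      ≤ ∑ v ∈ D, 6 := by
        refine sum_le_sum fun v _ => ?_
        refine (card_union_le _ _).trans ?_
        have h1 : ((univ : Finset (Fin 3)).image (fun i => ((i, v) : Ed))).card ≤ 3 := by
          refine card_image_le.trans ?_
          simp
        have h2 : ((univ : Finset (Fin 3)).image (fun i => ((i, v - unitv i) : Ed))).card ≤ 3 := by
          refine card_image_le.trans ?_
          simp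
        omega
    _ = 6 * D.card := by rw [sum_const, smul_eq_mul, Nat.mul_comm]

theorem mem_tch (D : Finset V) (e : Ed) (h : hd e ∈ D ∨ tl e ∈ D) : e ∈ tch D := by
  unfold tch
  rw [mem_biUnion]
  rcases h with h | h
  · refine ⟨hd e, h, mem_union_left _ (mem_image.2 ⟨e.1, mem_univ _, rfl⟩)⟩
  · refine ⟨tl e, h, mem_union_right _ (mem_image.2 ⟨e.1, mem_univ _, ?_⟩)⟩
    unfold tl
    rw [add_sub_cancel_right]

open Classical in
theorem coa_one (R : Rect) (H s : ℕ) (hH : 1 ≤ H) (hs : 1 ≤ s) (hw : 4 * s ≤ R.w)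
    (hl : 4 * s ≤ R.l) (S : Set V) (hS : adm R 0 (H : ℤ) S) :
    ∃ Φ ⊆ uset R H s, Φ.card * s ≤ (bcuts R 0 (H : ℤ) S).card ∧
    ∃ S' : Set V, adm R 0 (H : ℤ) S' ∧ trc R (dec R s Φ) S' ∧
    ∃ X : Finset Ed, X.card ≤ 12 * s * (bcuts R 0 (H : ℤ) S).card ∧
      cuts R 0 (H : ℤ) S' ⊆ cuts R 0 (H : ℤ) S ∪ X := by
  have hw4 : 4 ≤ R.w := by omega
  have hl4 : 4 ≤ R.l := by omega
  have hL : ∀ k : Fin 4, s ≤ sl R k := by
    intro k
    fin_cases k <;> simp [sl] <;> omega
  have hline := fun k : Fin 4 => line (sl R k) s H hs (hL k) (fun t h => vt (sco R k t) h ∈ S)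
  choose ρ hρ1 hρ2 hρ3 using hline
  have hrlt : ∀ k t, ρ k (sg (sl R k) s t) < sl R k := fun k t =>
    hρ1 k _ (sg_lt hs (hL k) t)
  have hbot : ∀ k t, t < sl R k → ∀ h : ℤ, h ≤ 0 → vt (sco R k t) h ∈ S := by
    intro k t ht h hh
    exact (hS (vt (sco R k t) h) (sco_bd R hw4 hl4 k t ht).1).1 hh
  have htop : ∀ k t, t < sl R k → ∀ h : ℤ, (H : ℤ) ≤ h → vt (sco R k t) h ∉ S := by
    intro k t ht h hh
    exact (hS (vt (sco R k t) h) (sco_bd R hw4 hl4 k t ht).1).2 hh
  set Φ : Finset (Fin 4 × ℕ × ℤ) := (uset R H s).filter (fun u =>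
    ¬ (vt (sco R u.1 (ρ u.1 u.2.1)) u.2.2 ∈ S ↔ vt (sco R u.1 (ρ u.1 u.2.1)) (u.2.2 + 1) ∈ S))
    with hΦ
  set S' : Set V := {v | (∃ k t, t < sl R k ∧ (v.1, v.2.1) = sco R k t ∧
      vt (sco R k (ρ k (sg (sl R k) s t))) v.2.2 ∈ S) ∨ (¬ bd R (v.1, v.2.1) ∧ v ∈ S)} with hS'
  have hS'1 : ∀ k t, t < sl R k → ∀ v : V, (v.1, v.2.1) = sco R k t →
      (v ∈ S' ↔ vt (sco R k (ρ k (sg (sl R k) s t))) v.2.2 ∈ S) := by
    intro k t ht v hv
    rw [hS', Set.mem_setOf_eq]
    constructor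
    · rintro (⟨k', t', ht', hv', h⟩ | ⟨h, _⟩)
      · obtain ⟨rfl, rfl⟩ := sco_inj R hw4 hl4 k k' t t' ht ht' (hv.symm.trans hv')
        exact h
      · rw [hv] at h
        exact absurd (sco_bd R hw4 hl4 k t ht) h
    · intro h
      exact Or.inl ⟨k, t, ht, hv, h⟩
  have hS'2 : ∀ v : V, ¬ bd R (v.1, v.2.1) → (v ∈ S' ↔ v ∈ S) := by
    intro v hv
    rw [hS', Set.mem_setOf_eq]
    constructor
    · rintro (⟨k', t', ht', hv', h⟩ | ⟨_, h⟩)
      · rw [hv'] at hv
        exact absurd (sco_bd R hw4 hl4 k' t' ht') hv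
      · exact h
    · intro h
      exact Or.inr ⟨hv, h⟩
  refine ⟨Φ, filter_subset _ _, ?_, S', ?_, ?_, ?_⟩
  · -- number of flips
    have h1 : Φ.card ≤ ∑ k : Fin 4, ∑ j ∈ range (sl R k / s), ((Ico (0 : ℤ) H).filter
        (fun h => ¬ (vt (sco R k (ρ k j)) h ∈ S ↔ vt (sco R k (ρ k j)) (h + 1) ∈ S))).card := by
      have hsub : Φ ⊆ univ.biUnion fun k : Fin 4 => (range (sl R k / s)).biUnion fun j =>
          ((Ico (0 : ℤ) H).filter (fun h => ¬ (vt (sco R k (ρ k j)) h ∈ S ↔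
            vt (sco R k (ρ k j)) (h + 1) ∈ S))).image (fun h => (k, j, h)) := by
        rintro ⟨k, j, h⟩ hx
        rw [hΦ, mem_filter, mem_uset] at hx
        rw [mem_biUnion]
        refine ⟨k, mem_univ _, ?_⟩
        rw [mem_biUnion]
        refine ⟨j, mem_range.2 hx.1.1, ?_⟩
        rw [mem_image]
        exact ⟨h, mem_filter.2 ⟨mem_Ico.2 hx.1.2, hx.2⟩, rfl⟩
      refine (card_le_card hsub).trans (card_biUnion_le.trans (sum_le_sum fun k _ => ?_))
      refine card_biUnion_le.trans (sum_le_sum fun j _ => ?_)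
      exact card_image_le
    calc Φ.card * s ≤ (∑ k : Fin 4, ∑ j ∈ range (sl R k / s), ((Ico (0 : ℤ) H).filter
        (fun h => ¬ (vt (sco R k (ρ k j)) h ∈ S ↔ vt (sco R k (ρ k j)) (h + 1) ∈ S))).card) * s :=
          Nat.mul_le_mul_right _ h1
      _ = ∑ k : Fin 4, (∑ j ∈ range (sl R k / s), ((Ico (0 : ℤ) H).filter
        (fun h => ¬ (vt (sco R k (ρ k j)) h ∈ S ↔ vt (sco R k (ρ k j)) (h + 1) ∈ S))).card) * s := by
          rw [Finset.sum_mul]
      _ ≤ ∑ k : Fin 4, ∑ t ∈ range (sl R k), ((Ico (0 : ℤ) H).filter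
        (fun h => ¬ (vt (sco R k t) h ∈ S ↔ vt (sco R k t) (h + 1) ∈ S))).card :=
          sum_le_sum fun k _ => hρ2 k
      _ ≤ _ := ver_sum R hw4 hl4 H S
  · -- admissible
    intro v hv
    by_cases hb : bd R (v.1, v.2.1)
    · obtain ⟨k, t, ht, hvt⟩ := bd_sco R hw4 hl4 _ hb
      rw [hS'1 k t ht v hvt]
      exact ⟨fun h => hbot k _ (hrlt k t) _ h, fun h => htop k _ (hrlt k t) _ h⟩
    · rw [hS'2 v hb]
      exact hS v hv
  · -- trace
    intro v hb
    obtain ⟨k, t, ht, hvt⟩ := bd_sco R hw4 hl4 _ hb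
    rw [hS'1 k t ht v hvt]
    have hdec : v ∈ dec R s Φ ↔
        Even ((Ico (0 : ℤ) v.2.2).filter (fun h => (k, sg (sl R k) s t, h) ∈ Φ)).card := by
      unfold dec
      rw [Set.mem_setOf_eq]
      constructor
      · rintro ⟨k', t', ht', hv', h⟩
        obtain ⟨rfl, rfl⟩ := sco_inj R hw4 hl4 k k' t t' ht ht' (hvt.symm.trans hv')
        exact h
      · intro h
        exact ⟨k, t, ht, hvt, h⟩
    rw [hdec]
    set r := ρ k (sg (sl R k) s t) with hr
    rcases le_or_gt v.2.2 0 with hv0 | hv0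
    · have h1 : Ico (0 : ℤ) v.2.2 = ∅ := Ico_eq_empty (by omega)
      rw [h1]
      simp only [filter_empty, card_empty, Even.zero, iff_true]
      exact hbot k _ (hrlt k t) _ hv0
    · obtain ⟨n, hn⟩ : ∃ n : ℕ, v.2.2 = n := ⟨v.2.2.toNat, by omega⟩
      have hfl : (Ico (0 : ℤ) v.2.2).filter (fun h => (k, sg (sl R k) s t, h) ∈ Φ)
          = (Ico (0 : ℤ) n).filter (fun h => ¬ (vt (sco R k r) h ∈ S ↔ vt (sco R k r) (h + 1) ∈ S)) := by
        rw [hn]
        refine filter_congr fun h hh => ?_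
        rw [mem_Ico] at hh
        rw [hΦ, mem_filter, mem_uset]
        constructor
        · exact fun h' => h'.2
        · intro h'
          refine ⟨⟨sg_lt hs (hL k) t, hh.1, ?_⟩, h'⟩
          by_contra hcon
          have a1 := htop k _ (hrlt k t) h (by omega)
          have a2 := htop k _ (hrlt k t) (h + 1) (by omega)
          exact h' ⟨fun h1 => absurd h1 a1, fun h1 => absurd h1 a2⟩
      rw [hfl, even_flips (fun h => vt (sco R k r) h ∈ S) n, hn]
      have : vt (sco R k r) 0 ∈ S := hbot k _ (hrlt k t) 0 le_rfl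
      tauto
  · -- changed vertices
    set D : Finset V := (box R 0 (H : ℤ)).filter (fun v => ¬ (v ∈ S ↔ v ∈ S')) with hD
    have hDcard : D.card ≤ 2 * s * (bcuts R 0 (H : ℤ) S).card := by
      have hsub : D ⊆ univ.biUnion fun k : Fin 4 => (range (sl R k)).biUnion fun t =>
          ((Icc (0 : ℤ) H).filter (fun h => ¬ (vt (sco R k t) h ∈ S ↔
            vt (sco R k (ρ k (sg (sl R k) s t))) h ∈ S))).image (fun h => vt (sco R k t) h) := by
        intro v hv
        rw [hD, mem_filter, mem_box] at hv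
        have hb : bd R (v.1, v.2.1) := by
          by_contra hb
          exact hv.2 (hS'2 v hb).symm
        obtain ⟨k, t, ht, hvt⟩ := bd_sco R hw4 hl4 _ hb
        have hveq : vt (sco R k t) v.2.2 = v := by
          unfold vt
          rw [← hvt]
        rw [mem_biUnion]
        refine ⟨k, mem_univ _, ?_⟩
        rw [mem_biUnion]
        refine ⟨t, mem_range.2 ht, ?_⟩
        rw [mem_image]
        refine ⟨v.2.2, mem_filter.2 ⟨mem_Icc.2 hv.1.2.2, ?_⟩, hveq⟩
        rw [hveq]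
        have := hv.2
        rw [hS'1 k t ht v hvt] at this
        exact this
      refine (card_le_card hsub).trans (card_biUnion_le.trans ?_)
      calc _ ≤ ∑ k : Fin 4, ∑ t ∈ range (sl R k), ((Icc (0 : ℤ) H).filter
            (fun h => ¬ (vt (sco R k t) h ∈ S ↔
            vt (sco R k (ρ k (sg (sl R k) s t))) h ∈ S))).card := by
            refine sum_le_sum fun k _ => ?_
            refine card_biUnion_le.trans (sum_le_sum fun t _ => ?_)
            exact card_image_le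
        _ ≤ ∑ k : Fin 4, 2 * s * ∑ t ∈ range (sl R k - 1), ((Icc (0 : ℤ) H).filter
            (fun h => ¬ (vt (sco R k t) h ∈ S ↔ vt (sco R k (t + 1)) h ∈ S))).card :=
            sum_le_sum fun k _ => hρ3 k
        _ = 2 * s * ∑ k : Fin 4, ∑ t ∈ range (sl R k - 1), ((Icc (0 : ℤ) H).filter
            (fun h => ¬ (vt (sco R k t) h ∈ S ↔ vt (sco R k (t + 1)) h ∈ S))).card := by
            rw [Finset.mul_sum]
        _ ≤ _ := Nat.mul_le_mul_left _ (hor_sum R hw4 hl4 H S)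
    refine ⟨tch D, ?_, ?_⟩
    · calc (tch D).card ≤ 6 * D.card := card_tch D
        _ ≤ 6 * (2 * s * (bcuts R 0 (H : ℤ) S).card) := Nat.mul_le_mul_left _ hDcard
        _ = _ := by ring
    · intro e he
      unfold cuts at he
      rw [mem_filter] at he
      by_cases hD1 : hd e ∈ D ∨ tl e ∈ D
      · exact mem_union_right _ (mem_tch D e hD1)
      · apply mem_union_left
        unfold cuts
        rw [mem_filter]
        refine ⟨he.1, ?_⟩
        have hbx := (mem_eds _ _ _ _).1 he.1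
        have h1 : (hd e ∈ S ↔ hd e ∈ S') := by
          by_contra hcon
          exact hD1 (Or.inl (mem_filter.2 ⟨hbx.1, hcon⟩))
        have h2 : (tl e ∈ S ↔ tl e ∈ S') := by
          by_contra hcon
          exact hD1 (Or.inr (mem_filter.2 ⟨hbx.2, hcon⟩))
        have h3 := he.2
        unfold cutE at h3 ⊢
        rw [h1, h2]
        exact h3

open Classical in
theorem _root_.Pool.SC.coa_thm : S_COA := by
  intro R H s' P A hH hs hw hl hP hA
  set k : ℕ := ⌊P / s'⌋₊ with hk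
  set J : Finset (Set V) := (((uset R H s').powerset.filter (fun Φ => Φ.card ≤ k)).image
    (dec R s')).filter (fun Tr => ∃ S0 : Set V, adm R 0 (H : ℤ) S0 ∧ trc R Tr S0 ∧
      ((cuts R 0 (H : ℤ) S0).card : ℝ) ≤ A + 12 * s' * P) with hJ
  have hs0 : (0 : ℝ) < s' := by exact_mod_cast hs
  refine ⟨J, ?_, ?_, ?_⟩
  · have h1 : J.card ≤ ((uset R H s').card + 1) ^ k :=
      (card_filter_le _ _).trans (card_image_le.trans (small_subsets _ _))
    have h2 : (((uset R H s').card + 1 : ℕ) : ℝ) ≤ 2 + 2 * ((R.w : ℝ) + R.l) * H := by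
      have := card_uset R H s'
      have h3 : (((uset R H s').card : ℕ) : ℝ) ≤ 2 * ((R.w : ℝ) + R.l) * H := by
        exact_mod_cast this
      push_cast
      linarith
    have hN1 : (1 : ℝ) ≤ (((uset R H s').card + 1 : ℕ) : ℝ) := by
      push_cast
      have : (0 : ℝ) ≤ ((uset R H s').card : ℝ) := Nat.cast_nonneg _
      linarith
    have hlog0 : 0 ≤ Real.log (((uset R H s').card + 1 : ℕ) : ℝ) := Real.log_nonneg hN1
    have hlogle : Real.log (((uset R H s').card + 1 : ℕ) : ℝ)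
        ≤ Real.log (2 + 2 * ((R.w : ℝ) + R.l) * H) :=
      Real.log_le_log (by linarith) h2
    have hkle : (k : ℝ) ≤ P / s' := Nat.floor_le (by positivity)
    have hJlog : Real.log (J.card : ℝ) ≤ k * Real.log (((uset R H s').card + 1 : ℕ) : ℝ) := by
      rcases Nat.eq_zero_or_pos J.card with h0 | h0
      · rw [h0]
        simp only [Nat.cast_zero, Real.log_zero]
        positivity
      · rw [← Real.log_pow]
        apply Real.log_le_log (by exact_mod_cast h0)
        exact_mod_cast h1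
    calc Real.log (J.card : ℝ) ≤ k * Real.log (((uset R H s').card + 1 : ℕ) : ℝ) := hJlog
      _ ≤ (P / s' + 1) * Real.log (2 + 2 * ((R.w : ℝ) + R.l) * H) := by
          apply mul_le_mul _ hlogle hlog0
          · have : 0 ≤ P / s' := by positivity
            linarith
          · linarith
  · intro Tr hTr
    rw [hJ, mem_filter] at hTr
    exact hTr.2
  · intro S hS hb hc
    obtain ⟨Φ, hΦ1, hΦ2, S', hS', htr, X, hX, hsub⟩ := coa_one R H s' hH hs hw hl S hS
    have hX' : (X.card : ℝ) ≤ 12 * s' * P := by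
      calc (X.card : ℝ) ≤ ((12 * s' * (bcuts R 0 (H : ℤ) S).card : ℕ) : ℝ) := by exact_mod_cast hX
        _ = 12 * s' * ((bcuts R 0 (H : ℤ) S).card : ℝ) := by push_cast; ring
        _ ≤ 12 * s' * P := by
            apply mul_le_mul_of_nonneg_left hb
            positivity
    refine ⟨dec R s' Φ, ?_, S', hS', htr, ?_⟩
    · rw [hJ, mem_filter]
      refine ⟨mem_image.2 ⟨Φ, mem_filter.2 ⟨mem_powerset.2 hΦ1, ?_⟩, rfl⟩, S', hS', htr, ?_⟩
      · apply Nat.le_floor
        rw [le_div_iff₀ hs0]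
        calc (Φ.card : ℝ) * s' = ((Φ.card * s' : ℕ) : ℝ) := by push_cast; ring
          _ ≤ ((bcuts R 0 (H : ℤ) S).card : ℝ) := by exact_mod_cast hΦ2
          _ ≤ P := hb
      · have h1 : (cuts R 0 (H : ℤ) S').card ≤ (cuts R 0 (H : ℤ) S).card + X.card :=
          (card_le_card hsub).trans (card_union_le _ _)
        calc ((cuts R 0 (H : ℤ) S').card : ℝ)
            ≤ ((cuts R 0 (H : ℤ) S).card : ℝ) + X.card := by exact_mod_cast h1
          _ ≤ A + 12 * s' * P := by linarith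
    · intro a b T ha hab
      have hb0 : 0 < b := by linarith
      have hcap0 : ∀ e, 0 ≤ cap a b T e := by
        intro e
        unfold cap
        split_ifs <;> linarith
      have hcapb : ∀ e, cap a b T e ≤ b := by
        intro e
        unfold cap
        split_ifs <;> linarith
      unfold en
      calc ∑ e ∈ cuts R 0 (H : ℤ) S', cap a b T e
          ≤ ∑ e ∈ cuts R 0 (H : ℤ) S ∪ X, cap a b T e :=
            sum_le_sum_of_subset_of_nonneg hsub fun e _ _ => hcap0 e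
        _ ≤ ∑ e ∈ cuts R 0 (H : ℤ) S, cap a b T e + ∑ e ∈ X, cap a b T e := by
            rw [← sum_union_inter]
            have : 0 ≤ ∑ e ∈ cuts R 0 (H : ℤ) S ∩ X, cap a b T e :=
              sum_nonneg fun e _ => hcap0 e
            linarith
        _ ≤ ∑ e ∈ cuts R 0 (H : ℤ) S, cap a b T e + b * X.card := by
            have : ∑ e ∈ X, cap a b T e ≤ ∑ e ∈ X, b := sum_le_sum fun e _ => hcapb e
            rw [sum_const, nsmul_eq_mul] at this
            linarith
        _ ≤ ∑ e ∈ cuts R 0 (H : ℤ) S, cap a b T e + 12 * b * s' * P := by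
            have := mul_le_mul_of_nonneg_left hX' hb0.le
            linarith

end Pool.SC.Coa
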